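import Mathlib
import Pool.Agent.Helper677.FreeRTFN

/-!
# Free groups are cyclic subgroup separable
-/

set_option autoImplicit false

namespace Pool.Agent.Y52.GE

open Pool.Agent.Helper677.RTFN

theorem of_comm_eq {ι : Type*} [DecidableEq ι] (i j : ι)
    (h : FreeGroup.of i * FreeGroup.of j = FreeGroup.of j * FreeGroup.of i) : i = j := by
  by_contra hij
  have h1 := congrArg (FreeGroup.lift (fun k : ι => if k = i then
    (Equiv.swap 0 1 : Equiv.Perm (Fin 3)) else Equiv.swap 1 2)) h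
  rw [map_mul, map_mul, FreeGroup.lift_apply_of, FreeGroup.lift_apply_of, if_pos rfl,
    if_neg (fun h => hij h.symm)] at h1
  have h2 := congrArg (fun e : Equiv.Perm (Fin 3) => e 0) h1
  revert h2
  decide

theorem free_subsingleton_cyclic {ι : Type*} [Subsingleton ι] :
    ∃ w : FreeGroup ι, ∀ x : FreeGroup ι, ∃ k : ℤ, x = w ^ k := by
  by_cases hι : Nonempty ι
  · obtain ⟨i⟩ := hι
    refine ⟨FreeGroup.of i, fun x => ?_⟩
    induction x using FreeGroup.induction_on with
    | C1 => exact ⟨0, by simp⟩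
    | of j => exact ⟨1, by rw [Subsingleton.elim j i, zpow_one]⟩
    | inv_of j _ => exact ⟨-1, by rw [Subsingleton.elim j i, zpow_neg, zpow_one]⟩
    | mul x y hx hy =>
      obtain ⟨k, hk⟩ := hx
      obtain ⟨l, hl⟩ := hy
      exact ⟨k + l, by rw [hk, hl, zpow_add]⟩
  · refine ⟨1, fun x => ?_⟩
    induction x using FreeGroup.induction_on with
    | C1 => exact ⟨0, by simp⟩
    | of j => exact absurd ⟨j⟩ hι
    | inv_of j _ => exact absurd ⟨j⟩ hι
    | mul x y hx hy =>
      obtain ⟨k, hk⟩ := hx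
      obtain ⟨l, hl⟩ := hy
      exact ⟨k + l, by rw [hk, hl, zpow_add]⟩

/-- commuting elements of a free group are powers of one element -/
theorem exists_root {α : Type*} (x y : FreeGroup α) (h : x * y = y * x) :
    ∃ (w : FreeGroup α) (p q : ℤ), x = w ^ p ∧ y = w ^ q := by
  classical
  let H : Subgroup (FreeGroup α) := Subgroup.closure {x, y}
  have hx : x ∈ H := Subgroup.subset_closure (by simp)
  have hy : y ∈ H := Subgroup.subset_closure (by simp)
  have hcomm : ∀ a ∈ H, ∀ b ∈ H, a * b = b * a := by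
    have h1 : H ≤ Subgroup.centralizer ({x, y} : Set (FreeGroup α)) := by
      rw [Subgroup.closure_le]
      rintro z (rfl | rfl)
      · rw [SetLike.mem_coe, Subgroup.mem_centralizer_iff]
        rintro u (rfl | rfl)
        · rfl
        · exact h.symm
      · rw [SetLike.mem_coe, Subgroup.mem_centralizer_iff]
        rintro u (rfl | rfl)
        · exact h
        · rfl
    intro a ha b hb
    have h2 : H ≤ Subgroup.centralizer (H : Set (FreeGroup α)) := by
      rw [Subgroup.closure_le]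
      intro z hz
      rw [SetLike.mem_coe, Subgroup.mem_centralizer_iff]
      intro u hu
      have h3 := (Subgroup.mem_centralizer_iff.1 (h1 hu)) z hz
      exact h3.symm
    have h4 := (Subgroup.mem_centralizer_iff.1 (h2 ha)) b hb
    exact h4.symm
  haveI : IsFreeGroup H := subgroupIsFreeOfIsFree H
  let e : H ≃* FreeGroup (IsFreeGroup.Generators H) := IsFreeGroup.toFreeGroup H
  haveI : Subsingleton (IsFreeGroup.Generators H) := by
    refine ⟨fun i j => ?_⟩
    apply of_comm_eq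
    apply e.symm.injective
    rw [map_mul, map_mul]
    apply Subtype.ext
    exact hcomm _ (e.symm (FreeGroup.of i)).2 _ (e.symm (FreeGroup.of j)).2
  obtain ⟨w, hw⟩ := free_subsingleton_cyclic (ι := IsFreeGroup.Generators H)
  have key : ∀ z (hz : z ∈ H), ∃ k : ℤ, z = (e.symm w : FreeGroup α) ^ k := by
    intro z hz
    obtain ⟨k, hk⟩ := hw (e ⟨z, hz⟩)
    refine ⟨k, ?_⟩
    have h1 : (⟨z, hz⟩ : H) = (e.symm w) ^ k := by
      rw [← map_zpow, ← hk, MulEquiv.symm_apply_apply]
    have h2 := congrArg Subtype.val h1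
    rw [SubgroupClass.coe_zpow] at h2
    exact h2
  obtain ⟨p, hp⟩ := key x hx
  obtain ⟨q, hq⟩ := key y hy
  exact ⟨e.symm w, p, q, hp, hq⟩

/-- a finite quotient in which the order of `w` is a multiple of `P` -/
theorem exists_order {α : Type} (w : FreeGroup α) (hw : w ≠ 1) (P : ℤ) (hP : P ≠ 0) :
    ∃ (Q : Type) (_ : Group Q) (_ : Finite Q) (ψ : FreeGroup α →* Q),
      ∀ s : ℤ, ψ w ^ s = 1 → P ∣ s := by
  classical
  obtain ⟨m, φ, hφ⟩ := free_rtfn w hw
  let X : Matrix (Fin m) (Fin m) ℤ := ((φ w : (Matrix (Fin m) (Fin m) ℤ)ˣ) : Matrix _ _ ℤ)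
  have hX1 : X - 1 ∈ J m 1 := (φ w).2.1
  have hX : X - 1 ≠ 0 := by
    intro h0
    apply hφ
    apply Subtype.ext
    apply Units.ext
    exact sub_eq_zero.1 h0
  have hex : ∃ d, X - 1 ∉ J m (d + 1) := by
    by_contra hne
    push Not at hne
    exact hX (J_top (J_anti (Nat.le_succ m) (hne m)))
  obtain ⟨d, hd, hmin⟩ : ∃ d, X - 1 ∉ J m (d + 1) ∧ ∀ e < d, X - 1 ∈ J m (e + 1) := by
    refine ⟨Nat.find hex, Nat.find_spec hex, fun e he => ?_⟩
    have := Nat.find_min hex he
    push Not at this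
    exact this
  have hd1 : 1 ≤ d := by
    by_contra hlt
    have : d = 0 := by omega
    subst this
    exact hd hX1
  have hXd : X - 1 ∈ J m d := by
    have := hmin (d - 1) (by omega)
    rwa [show d - 1 + 1 = d by omega] at this
  rw [mem_J] at hd
  push Not at hd
  obtain ⟨a, b, hab, hne⟩ := hd
  have hn : (P * (X - 1) a b).natAbs ≠ 0 := by
    rw [Int.natAbs_ne_zero]
    exact mul_ne_zero hP hne
  set M : ℕ := (P * (X - 1) a b).natAbs with hM
  haveI : NeZero M := ⟨hn⟩
  let R : (Matrix (Fin m) (Fin m) ℤ) →+* Matrix (Fin m) (Fin m) (ZMod M) :=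
    (Int.castRingHom (ZMod M)).mapMatrix
  refine ⟨(Matrix (Fin m) (Fin m) (ZMod M))ˣ, inferInstance, inferInstance,
    (Units.map R.toMonoidHom).comp ((Subgroup.subtype _).comp φ), ?_⟩
  have key : ∀ k : ℕ, (Units.map R.toMonoidHom ((φ w : (Matrix (Fin m) (Fin m) ℤ)ˣ))) ^ k = 1 →
      P ∣ (k : ℤ) := by
    intro k hk
    have h1 : R (X ^ k) = 1 := by
      have h2 := congrArg Units.val hk
      rw [Units.val_pow_eq_pow_val, Units.coe_map, Units.val_one] at h2
      rw [map_pow]
      exact h2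
    have h3 := pow_aux hd1 hXd k
    rw [mem_J] at h3
    have h4 := h3 a b (by omega)
    have h5 : (X ^ k - 1) a b = k * (X - 1) a b := by
      have : (X ^ k - 1 - k • (X - 1)) a b = (X ^ k - 1) a b - k * (X - 1) a b := by
        rw [Matrix.sub_apply, Matrix.smul_apply, nsmul_eq_mul]
      rw [this] at h4
      linarith
    have h6 : (((X ^ k - 1) a b : ℤ) : ZMod M) = 0 := by
      have h7 : R (X ^ k - 1) = 0 := by rw [map_sub, h1, map_one, sub_self]
      have h8 := congrFun (congrFun h7 a) b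
      exact h8
    rw [h5, ZMod.intCast_zmod_eq_zero_iff_dvd, hM, Int.natAbs_dvd] at h6
    exact (mul_dvd_mul_iff_right hne).1 h6
  intro s hs
  have h1 := key _ (pow_orderOf_eq_one
    (Units.map R.toMonoidHom ((φ w : (Matrix (Fin m) (Fin m) ℤ)ˣ))))
  exact h1.trans (orderOf_dvd_iff_zpow_eq_one.2 hs)

/-- free groups are cyclic subgroup separable, by finite quotients -/
theorem free_sep {α : Type} (f0 f1 : FreeGroup α) (h : f1 ∉ Subgroup.zpowers f0) :
    ∃ (Q : Type) (_ : Group Q) (_ : Finite Q) (ψ : FreeGroup α →* Q),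
      ψ f1 ∉ Subgroup.zpowers (ψ f0) := by
  by_cases hc : f0 * f1 = f1 * f0
  · obtain ⟨w, p, q, rfl, rfl⟩ := exists_root f0 f1 hc
    have hpq : ¬ p ∣ q := by
      rintro ⟨j, rfl⟩
      apply h
      rw [zpow_mul]
      exact Subgroup.zpow_mem _ (Subgroup.mem_zpowers _) j
    have hw : w ≠ 1 := by
      intro hw1
      apply h
      rw [hw1, one_zpow, one_zpow]
      exact Subgroup.one_mem (Subgroup.zpowers (1 : FreeGroup α))
    have hP : ∃ P : ℤ, P ≠ 0 ∧ ∀ j : ℤ, ¬ P ∣ q - p * j := by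
      by_cases hp : p = 0
      · subst hp
        have hq : q ≠ 0 := fun h0 => hpq (by rw [h0])
        refine ⟨2 * q, by omega, fun j hj => ?_⟩
        rw [zero_mul, sub_zero] at hj
        obtain ⟨c, hc⟩ := hj
        have h1 : q * (1 - 2 * c) = 0 := by linear_combination hc
        rcases mul_eq_zero.1 h1 with h2 | h2
        · exact hq h2
        · omega
      · refine ⟨p, hp, fun j hj => hpq ?_⟩
        have := dvd_add hj (dvd_mul_right p j)
        rwa [sub_add_cancel] at this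
    obtain ⟨P, hP0, hP⟩ := hP
    obtain ⟨Q, i1, i2, ψ, hψ⟩ := exists_order w hw P hP0
    refine ⟨Q, i1, i2, ψ, ?_⟩
    rintro ⟨j, hj⟩
    apply hP j
    apply hψ
    have hj' : (ψ (w ^ p)) ^ j = ψ (w ^ q) := hj
    rw [map_zpow, map_zpow, ← zpow_mul] at hj'
    rw [zpow_sub, ← hj', mul_inv_cancel]
  · have hw : f0 * f1 * f0⁻¹ * f1⁻¹ ≠ 1 := by
      intro h1
      apply hc
      rw [mul_inv_eq_one, mul_inv_eq_iff_eq_mul] at h1
      exact h1
    obtain ⟨Q, i1, i2, ψ, hψ⟩ := exists_order _ hw 2 (by norm_num)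
    refine ⟨Q, i1, i2, ψ, ?_⟩
    rintro ⟨j, hj⟩
    have hj' : (ψ f0) ^ j = ψ f1 := hj
    have h1 := hψ 1 (by
      rw [zpow_one, map_mul, map_mul, map_mul, map_inv, map_inv, ← hj']
      group)
    omega

theorem free_rf {α : Type} (f : FreeGroup α) (h : f ≠ 1) :
    ∃ (Q : Type) (_ : Group Q) (_ : Finite Q) (ψ : FreeGroup α →* Q), ψ f ≠ 1 := by
  obtain ⟨Q, i1, i2, ψ, hψ⟩ := exists_order f h 2 (by norm_num)
  refine ⟨Q, i1, i2, ψ, fun h1 => ?_⟩
  have := hψ 1 (by rw [zpow_one, h1])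
  omega

end Pool.Agent.Y52.GE
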