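import Mathlib
import Pool.Agent.Y52.GE.Free

/-!
# Semidirect products of free groups of finite rank with `ℤ` are cyclic subgroup separable
-/

set_option autoImplicit false

namespace Pool.Agent.Y52.GE

section General

variable {F N : Type} [Group F] [Group N] (Φ : N →* MulAut F) (Q : Type) [Group Q]

/-- left translations -/
def actA : F →* Equiv.Perm ((F →* Q) × Q) where
  toFun f := ⟨fun x => (x.1, x.1 f * x.2), fun x => (x.1, x.1 f⁻¹ * x.2),
    fun x => by simp, fun x => by simp⟩
  map_one' := by ext x <;> simp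
  map_mul' f f' := by
    ext x
    · rfl
    · show x.1 (f * f') * x.2 = x.1 f * (x.1 f' * x.2)
      rw [map_mul, mul_assoc]

theorem actA_apply (f : F) (χ : F →* Q) (q : Q) : actA Q f (χ, q) = (χ, χ f * q) := rfl

/-- precomposition with automorphisms -/
def actB : N →* Equiv.Perm ((F →* Q) × Q) where
  toFun n := ⟨fun x => (x.1.comp ((Φ n)⁻¹ : MulAut F).toMonoidHom, x.2),
    fun x => (x.1.comp (Φ n).toMonoidHom, x.2),
    fun x => by
      ext f
      · simp
      · rfl,
    fun x => by
      ext f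
      · simp
      · rfl⟩
  map_one' := by
    ext x f
    · simp
    · rfl
  map_mul' n n' := by
    ext x f
    · simp
    · rfl

theorem actB_apply (n : N) (χ : F →* Q) (q : Q) :
    actB Φ Q n (χ, q) = (χ.comp ((Φ n)⁻¹ : MulAut F).toMonoidHom, q) := rfl

theorem actB_inv_apply (n : N) (χ : F →* Q) (q : Q) :
    (actB Φ Q n)⁻¹ (χ, q) = (χ.comp (Φ n).toMonoidHom, q) := rfl

theorem act_compat (n : N) : (actA (F := F) Q).comp (Φ n).toMonoidHom =
    (MulAut.conj (actB Φ Q n)).toMonoidHom.comp (actA Q) := by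
  apply MonoidHom.ext
  intro f
  apply Equiv.ext
  rintro ⟨χ, q⟩
  show actA Q (Φ n f) (χ, q) = actB Φ Q n (actA Q f ((actB Φ Q n)⁻¹ (χ, q)))
  rw [actA_apply, actB_inv_apply, actA_apply, actB_apply]
  refine Prod.ext ?_ rfl
  ext g
  show χ g = χ (Φ n ((Φ n)⁻¹ g))
  rw [MulAut.apply_inv_self]

/-- the action of the semidirect product -/
def act : F ⋊[Φ] N →* Equiv.Perm ((F →* Q) × Q) :=
  SemidirectProduct.lift (actA Q) (actB Φ Q) (act_compat Φ Q)

theorem act_inl (f : F) (χ : F →* Q) (q : Q) :
    act Φ Q (SemidirectProduct.inl f) (χ, q) = (χ, χ f * q) := by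
  unfold act
  rw [SemidirectProduct.lift_inl]
  rfl

/-- a finite quotient separating `h` from the cyclic subgroup generated by `g` -/
def Sep (G : Type) [Group G] (g h : G) : Prop :=
  ∃ (R : Type) (_ : Group R) (_ : Finite R) (θ : G →* R), θ h ∉ Subgroup.zpowers (θ g)

theorem Sep.subgroup {G : Type} [Group G] {g h : G} (hs : Sep G g h) :
    ∃ K : Subgroup G, K.FiniteIndex ∧ Subgroup.zpowers g ≤ K ∧ h ∉ K := by
  obtain ⟨R, _, _, θ, hθ⟩ := hs
  have hfi : ((Subgroup.zpowers (θ g)).comap θ).FiniteIndex :=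
    haveI := Subgroup.finiteIndex_ker θ
    Subgroup.finiteIndex_of_le (Subgroup.ker_le_comap θ _)
  refine ⟨(Subgroup.zpowers (θ g)).comap θ, hfi, ?_, hθ⟩
  rw [Subgroup.zpowers_le, Subgroup.mem_comap]
  exact Subgroup.mem_zpowers _

/-- the second coordinate modulo `m` -/
def modHom (Φ : Multiplicative ℤ →* MulAut F) (m : ℕ) :
    F ⋊[Φ] Multiplicative ℤ →* Multiplicative (ZMod m) :=
  (AddMonoidHom.toMultiplicative (Int.castAddHom (ZMod m))).comp SemidirectProduct.rightHom

theorem modHom_apply (Φ : Multiplicative ℤ →* MulAut F) (m : ℕ)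
    (g : F ⋊[Φ] Multiplicative ℤ) :
    modHom Φ m g = Multiplicative.ofAdd ((g.right.toAdd : ℤ) : ZMod m) := rfl

theorem modHom_zpow_eq (Φ : Multiplicative ℤ →* MulAut F) (m : ℕ)
    (g h : F ⋊[Φ] Multiplicative ℤ) (i : ℤ) (hh : modHom Φ m g ^ i = modHom Φ m h) :
    (m : ℤ) ∣ h.right.toAdd - i * g.right.toAdd := by
  rw [modHom_apply, modHom_apply, ← ofAdd_zsmul] at hh
  have h1 := Multiplicative.ofAdd.injective hh
  rw [← ZMod.intCast_zmod_eq_zero_iff_dvd]
  push_cast
  rw [← h1]
  simp

/-- `F ⋊ ℤ` is cyclic subgroup separable if `F` is and finite groups have finitely many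
homomorphisms from `F` -/
theorem sep_semidirect (Φ : Multiplicative ℤ →* MulAut F)
    (hfin : ∀ (Q : Type) [Group Q] [Finite Q], Finite (F →* Q))
    (hsep : ∀ f0 f1 : F, f1 ∉ Subgroup.zpowers f0 → Sep F f0 f1)
    (g h : F ⋊[Φ] Multiplicative ℤ) (hgh : h ∉ Subgroup.zpowers g) : Sep _ g h := by
  by_cases hg : g.right.toAdd = 0
  · by_cases hh : h.right.toAdd = 0
    · have hg1 : g.right = 1 := hg
      have hh1 : h.right = 1 := hh
      have hg' : g = SemidirectProduct.inl g.left := SemidirectProduct.ext (by simp) (by simp [hg1])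
      have hh' : h = SemidirectProduct.inl h.left := SemidirectProduct.ext (by simp) (by simp [hh1])
      have h1 : h.left ∉ Subgroup.zpowers g.left := by
        rintro ⟨j, hj⟩
        apply hgh
        have hj' : g.left ^ j = h.left := hj
        rw [hh', ← hj', map_zpow, ← hg']
        exact Subgroup.zpow_mem _ (Subgroup.mem_zpowers _) j
      obtain ⟨Q, _, _, ψ, hψ⟩ := hsep _ _ h1
      haveI := hfin Q
      refine ⟨Equiv.Perm ((F →* Q) × Q), inferInstance, inferInstance, act Φ Q, ?_⟩
      rintro ⟨j, hj⟩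
      have hj' : act Φ Q g ^ j = act Φ Q h := hj
      apply hψ
      rw [hg', hh', ← map_zpow, ← map_zpow] at hj'
      have h2 := congrArg (fun e : Equiv.Perm ((F →* Q) × Q) => (e (ψ, 1)).2) hj'
      simp only [act_inl, mul_one] at h2
      rw [← h2, map_zpow]
      exact Subgroup.zpow_mem _ (Subgroup.mem_zpowers _) j
    · haveI : NeZero (2 * h.right.toAdd).natAbs := ⟨by
        rw [Int.natAbs_ne_zero]; omega⟩
      refine ⟨Multiplicative (ZMod (2 * h.right.toAdd).natAbs), inferInstance, inferInstance,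
        modHom Φ _, ?_⟩
      rintro ⟨j, hj⟩
      have h1 := modHom_zpow_eq Φ _ g h j hj
      rw [hg, mul_zero, sub_zero, Int.natAbs_dvd] at h1
      obtain ⟨c, hc⟩ := h1
      have h2 : h.right.toAdd * (1 - 2 * c) = 0 := by linear_combination hc
      rcases mul_eq_zero.1 h2 with h3 | h3
      · exact hh h3
      · omega
  · by_cases hd : g.right.toAdd ∣ h.right.toAdd
    · obtain ⟨j, hj⟩ := hd
      have hr : (g ^ (-j) * h).right = 1 := by
        have h1 : (SemidirectProduct.rightHom (g ^ (-j) * h) : Multiplicative ℤ) = 1 := by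
          rw [map_mul, map_zpow]
          apply Multiplicative.toAdd.injective
          rw [toAdd_mul, toAdd_zpow, toAdd_one]
          show (-j) • (g.right.toAdd) + h.right.toAdd = 0
          rw [hj, smul_eq_mul]
          ring
        exact h1
      have hf : g ^ (-j) * h = SemidirectProduct.inl (g ^ (-j) * h).left :=
        SemidirectProduct.ext (by simp) (by rw [hr]; simp)
      have hne : (g ^ (-j) * h).left ∉ Subgroup.zpowers (1 : F) := by
        rintro ⟨i, hi⟩
        have hi' : (1 : F) ^ i = (g ^ (-j) * h).left := hi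
        rw [one_zpow] at hi'
        rw [← hi', map_one, zpow_neg, inv_mul_eq_one] at hf
        apply hgh
        rw [← hf]
        exact Subgroup.zpow_mem _ (Subgroup.mem_zpowers _) j
      obtain ⟨Q, _, _, ψ, hψ⟩ := hsep _ _ hne
      haveI := hfin Q
      have hpos : 0 < orderOf (act Φ Q g) := orderOf_pos _
      haveI : NeZero (g.right.toAdd * orderOf (act Φ Q g)).natAbs := ⟨by
        rw [Int.natAbs_ne_zero]
        exact mul_ne_zero hg (by exact_mod_cast hpos.ne')⟩
      refine ⟨Equiv.Perm ((F →* Q) × Q) ×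
        Multiplicative (ZMod (g.right.toAdd * orderOf (act Φ Q g)).natAbs),
        inferInstance, inferInstance, (act Φ Q).prod (modHom Φ _), ?_⟩
      rintro ⟨i, hi⟩
      have hi' : ((act Φ Q).prod (modHom Φ _) g) ^ i = (act Φ Q).prod (modHom Φ _) h := hi
      have h1 : act Φ Q g ^ i = act Φ Q h := congrArg Prod.fst hi'
      have h2 := modHom_zpow_eq Φ _ g h i (congrArg Prod.snd hi')
      rw [Int.natAbs_dvd, hj] at h2
      have h3 : (orderOf (act Φ Q g) : ℤ) ∣ j - i := by
        have h4 : g.right.toAdd * (orderOf (act Φ Q g) : ℤ) ∣ g.right.toAdd * (j - i) := by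
          have h5 : g.right.toAdd * (j - i) = g.right.toAdd * j - i * g.right.toAdd := by ring
          rw [h5]
          exact h2
        exact (mul_dvd_mul_iff_left hg).1 h4
      have h5 : act Φ Q g ^ (j - i) = 1 := orderOf_dvd_iff_zpow_eq_one.1 h3
      have h6 : act Φ Q (g ^ (-j) * h) = 1 := by
        rw [map_mul, map_zpow, ← h1, ← zpow_add, show -j + i = -(j - i) by ring, zpow_neg, h5,
          inv_one]
      rw [hf] at h6
      have h7 := congrArg (fun e : Equiv.Perm ((F →* Q) × Q) => (e (ψ, 1)).2) h6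
      simp only [act_inl, mul_one, Equiv.Perm.coe_one, id_eq] at h7
      apply hψ
      rw [h7]
      exact Subgroup.one_mem _
    · haveI : NeZero (g.right.toAdd).natAbs := ⟨by rwa [Int.natAbs_ne_zero]⟩
      refine ⟨Multiplicative (ZMod (g.right.toAdd).natAbs), inferInstance, inferInstance,
        modHom Φ _, ?_⟩
      rintro ⟨j, hj⟩
      have h1 := modHom_zpow_eq Φ _ g h j hj
      rw [Int.natAbs_dvd] at h1
      apply hd
      have := dvd_add h1 (dvd_mul_left g.right.toAdd j)
      rwa [sub_add_cancel] at this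

end General

theorem finite_hom (n : ℕ) (Q : Type) [Group Q] [Finite Q] : Finite (FreeGroup (Fin n) →* Q) :=
  Finite.of_equiv _ (FreeGroup.lift (α := Fin n) (β := Q))

/-- cyclic subgroup separability of `F ⋊ ℤ` for free groups `F` of finite rank -/
theorem sep_free (n : ℕ) (Φ : Multiplicative ℤ →* MulAut (FreeGroup (Fin n)))
    (g h : FreeGroup (Fin n) ⋊[Φ] Multiplicative ℤ) (hgh : h ∉ Subgroup.zpowers g) :
    ∃ K : Subgroup (FreeGroup (Fin n) ⋊[Φ] Multiplicative ℤ),
      K.FiniteIndex ∧ Subgroup.zpowers g ≤ K ∧ h ∉ K :=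
  (sep_semidirect Φ (fun Q _ _ => finite_hom n Q) (fun f0 f1 h => free_sep f0 f1 h) g h
    hgh).subgroup

end Pool.Agent.Y52.GE
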