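import Mathlib
import Pool.Agent.Helper270.HNN
import Pool.Agent.Y52.GE.Grp

/-!
# A tubular free-by-cyclic group and its tree
-/

set_option autoImplicit false

namespace Pool.Agent.Y52.GE

open FreeGroup

/-- the free group of rank three -/
abbrev F3 : Type := FreeGroup (Fin 3)

/-- remove the leading letters `0` -/
def dropA (L : List (Fin 3 × Bool)) : List (Fin 3 × Bool) := L.dropWhile fun l => l.1 = 0

theorem dropA_cons_zero (ε : Bool) (L : List (Fin 3 × Bool)) : dropA ((0, ε) :: L) = dropA L := by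
  simp [dropA]

theorem dropA_cons_ne (x : Fin 3 × Bool) (hx : x.1 ≠ 0) (L : List (Fin 3 × Bool)) :
    dropA (x :: L) = x :: L := by
  simp [dropA, hx]

theorem toWord_mk_mul (x : Fin 3 × Bool) (g : F3) :
    (FreeGroup.mk [x] * g).toWord = List.casesOn g.toWord [x] fun hd tl =>
      if x.1 = hd.1 ∧ x.2 = not hd.2 then tl else x :: hd :: tl := by
  have h1 : FreeGroup.mk [x] * g = FreeGroup.mk (x :: g.toWord) := by
    conv_lhs => rw [← mk_toWord (x := g)]
    rw [mul_mk]
    rfl
  rw [h1, toWord_mk, reduce.cons, reduce_toWord]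

theorem dropA_mul_one (ε : Bool) (g : F3) :
    dropA (FreeGroup.mk [((0 : Fin 3), ε)] * g).toWord = dropA g.toWord := by
  rw [toWord_mk_mul]
  cases hL : g.toWord with
  | nil => exact dropA_cons_zero ε []
  | cons hd tl =>
    show dropA (if _ then _ else _) = _
    split_ifs with h
    · obtain ⟨h1, h2⟩ := h
      have : hd = (0, hd.2) := Prod.ext h1.symm rfl
      rw [this, dropA_cons_zero]
    · rw [dropA_cons_zero]

theorem mk_true (i : Fin 3) : FreeGroup.mk [(i, true)] = (FreeGroup.of i : F3) := rfl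

theorem mk_false (i : Fin 3) : FreeGroup.mk [(i, false)] = (FreeGroup.of i : F3)⁻¹ := rfl

theorem dropA_zpow_mul (k : ℤ) (g : F3) :
    dropA ((FreeGroup.of 0 : F3) ^ k * g).toWord = dropA g.toWord := by
  induction k using Int.induction_on with
  | zero => rw [zpow_zero, one_mul]
  | succ k ih =>
    rw [add_comm, zpow_add, zpow_one, mul_assoc, ← mk_true, dropA_mul_one, mk_true, ih]
  | pred k ih =>
    rw [sub_eq_neg_add, zpow_add, zpow_neg_one, mul_assoc, ← mk_false, dropA_mul_one, ih]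

theorem exists_zpow_dropA (L : List (Fin 3 × Bool)) :
    ∃ k : ℤ, FreeGroup.mk L = (FreeGroup.of 0 : F3) ^ k * FreeGroup.mk (dropA L) := by
  induction L with
  | nil => exact ⟨0, by simp [dropA]⟩
  | cons x L ih =>
    by_cases hx : x.1 = 0
    · obtain ⟨k, hk⟩ := ih
      obtain ⟨i, ε⟩ := x
      simp only at hx
      subst hx
      rw [dropA_cons_zero]
      have h1 : FreeGroup.mk ((0, ε) :: L) = FreeGroup.mk [((0 : Fin 3), ε)] * FreeGroup.mk L := by
        rw [mul_mk]
        rfl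
      rw [h1, hk, ← mul_assoc]
      cases ε
      · exact ⟨-1 + k, by rw [mk_false, zpow_add, zpow_neg_one]⟩
      · exact ⟨1 + k, by rw [mk_true, zpow_add, zpow_one]⟩
    · exact ⟨0, by rw [dropA_cons_ne x hx, zpow_zero, one_mul]⟩

theorem dropA_head (L : List (Fin 3 × Bool)) (x : Fin 3 × Bool) (l : List (Fin 3 × Bool))
    (h : dropA L = x :: l) : x.1 ≠ 0 := by
  induction L with
  | nil => simp [dropA] at h
  | cons y L ih =>
    by_cases hy : y.1 = 0
    · have : y = (0, y.2) := Prod.ext hy rfl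
      rw [this, dropA_cons_zero] at h
      exact ih h
    · rw [dropA_cons_ne y hy] at h
      rw [← (List.cons.inj h).1]
      exact hy

theorem isReduced_dropA (L : List (Fin 3 × Bool)) (h : IsReduced L) : IsReduced (dropA L) :=
  List.IsChain.suffix h (List.dropWhile_suffix _)

theorem length_dropA (L : List (Fin 3 × Bool)) : (dropA L).length ≤ L.length :=
  (List.dropWhile_suffix _).length_le

/-! ### the group -/

/-- the exponents `0, 1, -1` -/
def ex : Fin 3 → ℤ := ![0, 1, -1]

/-- the images of the generators under the powers of the automorphism -/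
def img (n : ℤ) (i : Fin 3) : F3 := of i * of 0 ^ (n * ex i)

theorem img_zero (n : ℤ) : img n 0 = of 0 := by simp [img, ex]

theorem lift_img (m n : ℤ) (f : F3) :
    FreeGroup.lift (img m) (FreeGroup.lift (img n) f) = FreeGroup.lift (img (m + n)) f := by
  have h1 : (FreeGroup.lift (img m)).comp (FreeGroup.lift (img n)) = FreeGroup.lift (img (m + n)) := by
    ext i
    rw [MonoidHom.comp_apply, lift_apply_of, lift_apply_of, img, _root_.map_mul, map_zpow, lift_apply_of,
      lift_apply_of, img_zero, img, img, mul_assoc, ← zpow_add, add_mul]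
  exact DFunLike.congr_fun h1 f

theorem lift_img_zero (f : F3) : FreeGroup.lift (img 0) f = f := by
  have h1 : FreeGroup.lift (img 0) = MonoidHom.id F3 := by
    ext i
    rw [lift_apply_of, img, zero_mul, zpow_zero, mul_one]
    rfl
  exact DFunLike.congr_fun h1 f

/-- the powers of the automorphism `a ↦ a`, `b ↦ b a`, `c ↦ c a⁻¹` -/
def Phi : Multiplicative ℤ →* MulAut F3 where
  toFun n :=
    { toFun := FreeGroup.lift (img n.toAdd)
      invFun := FreeGroup.lift (img (-n.toAdd))
      left_inv := fun f => by rw [lift_img, neg_add_cancel, lift_img_zero]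
      right_inv := fun f => by rw [lift_img, add_neg_cancel, lift_img_zero]
      map_mul' := _root_.map_mul _ }
  map_one' := by
    ext1 f
    exact lift_img_zero f
  map_mul' m n := by
    ext1 f
    exact (lift_img m.toAdd n.toAdd f).symm

theorem Phi_of (n : Multiplicative ℤ) (i : Fin 3) :
    Phi n (of i) = of i * of 0 ^ (n.toAdd * ex i) := lift_apply_of ..

theorem Phi_zero_zpow (n : Multiplicative ℤ) (k : ℤ) : Phi n (of 0 ^ k) = of 0 ^ k := by
  rw [map_zpow, Phi_of]
  simp [ex]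

/-- the group `⟨a, b, c, t | t a t⁻¹ = a, t b t⁻¹ = b a, t c t⁻¹ = c a⁻¹⟩` -/
abbrev GG : Type := F3 ⋊[Phi] Multiplicative ℤ

/-- the subgroup `⟨a, t⟩` -/
def AA : Subgroup GG where
  carrier := {g | ∃ k : ℤ, g.left = of 0 ^ k}
  one_mem' := ⟨0, rfl⟩
  mul_mem' := by
    rintro g h ⟨k, hk⟩ ⟨l, hl⟩
    refine ⟨k + l, ?_⟩
    rw [SemidirectProduct.mul_left, hk, hl, Phi_zero_zpow, zpow_add]
  inv_mem' := by
    rintro g ⟨k, hk⟩
    refine ⟨-k, ?_⟩
    rw [SemidirectProduct.inv_left, hk, ← zpow_neg, Phi_zero_zpow]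

theorem mem_AA {g : GG} : g ∈ AA ↔ ∃ k : ℤ, g.left = of 0 ^ k := Iff.rfl

/-- the vertices -/
abbrev VV : Type := GG ⧸ AA

/-- the vertex of an element of the group -/
abbrev vx (g : GG) : VV := (g : VV)

/-- the normal form of a coset -/
def nf (g : GG) : List (Fin 3 × Bool) := dropA (g.left⁻¹).toWord

theorem vx_eq_iff {g h : GG} : vx g = vx h ↔ ∃ k : ℤ, h.left = g.left * of 0 ^ k := by
  rw [QuotientGroup.eq, mem_AA, SemidirectProduct.mul_left, SemidirectProduct.inv_left,
    SemidirectProduct.inv_right, ← _root_.map_mul]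
  constructor
  · rintro ⟨k, hk⟩
    refine ⟨k, ?_⟩
    have h1 := congrArg (Phi g.right) hk
    rw [Phi_zero_zpow, _root_.map_inv, MulAut.apply_inv_self] at h1
    rw [← h1, mul_inv_cancel_left]
  · rintro ⟨k, hk⟩
    refine ⟨k, ?_⟩
    rw [hk, inv_mul_cancel_left, Phi_zero_zpow]

theorem nf_eq {g h : GG} (hgh : vx g = vx h) : nf g = nf h := by
  obtain ⟨k, hk⟩ := vx_eq_iff.1 hgh
  unfold nf
  rw [hk, mul_inv_rev, ← zpow_neg, dropA_zpow_mul]

theorem vx_mk_nf (g : GG) : vx g = vx (SemidirectProduct.inl (FreeGroup.mk (nf g))⁻¹) := by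
  obtain ⟨k, hk⟩ := exists_zpow_dropA (g.left⁻¹).toWord
  rw [mk_toWord] at hk
  rw [vx_eq_iff]
  refine ⟨k, ?_⟩
  rw [SemidirectProduct.left_inl]
  have h1 : g.left = (FreeGroup.mk (nf g))⁻¹ * (of 0 ^ k)⁻¹ := by
    rw [← mul_inv_rev, nf, ← hk, inv_inv]
  rw [h1, inv_mul_cancel_right]

theorem nf_inl (l : List (Fin 3 × Bool)) (hl : IsReduced l) :
    nf (SemidirectProduct.inl (FreeGroup.mk l)⁻¹) = dropA l := by
  unfold nf
  rw [SemidirectProduct.left_inl, inv_inv, toWord_mk, hl.reduce_eq]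

/-- the normal form of a vertex -/
def nv (v : VV) : List (Fin 3 × Bool) := Quotient.liftOn' v nf fun _ _ h => nf_eq (Quotient.sound' h)

theorem nv_vx (g : GG) : nv (vx g) = nf g := rfl

/-- the parent of a vertex -/
def par (v : VV) : VV := vx (SemidirectProduct.inl (FreeGroup.mk (nv v).tail)⁻¹)

/-- the height of a generator -/
def hgt (i : Fin 3) : Multiplicative ℤ := if i = 0 then 1 else Multiplicative.ofAdd 1

/-- the height -/
def ht : GG →* Multiplicative ℤ :=
  SemidirectProduct.lift (FreeGroup.lift hgt) 1 (by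
    intro n
    ext i
    show Multiplicative.toAdd (FreeGroup.lift hgt (Phi n (of i))) = Multiplicative.toAdd
      (MulAut.conj ((1 : Multiplicative ℤ →* Multiplicative ℤ) n) (FreeGroup.lift hgt (of i)))
    rw [Phi_of, _root_.map_mul, map_zpow, lift_apply_of, lift_apply_of, MonoidHom.one_apply,
      _root_.map_one, MulAut.one_apply]
    simp [hgt])

theorem ht_apply (g : GG) : ht g = FreeGroup.lift hgt g.left := by
  show FreeGroup.lift hgt g.left * 1 = _
  rw [mul_one]

theorem ht_inl_of (s : Fin 3) (hs : s ≠ 0) :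
    ht (SemidirectProduct.inl (of s)) = Multiplicative.ofAdd 1 := by
  rw [ht_apply, SemidirectProduct.left_inl, lift_apply_of, hgt, if_neg hs]

theorem ht_eq {g h : GG} (hgh : vx g = vx h) : ht g = ht h := by
  obtain ⟨k, hk⟩ := vx_eq_iff.1 hgh
  rw [ht_apply, ht_apply, hk, _root_.map_mul, map_zpow, lift_apply_of, hgt, if_pos rfl, one_zpow,
    mul_one]

/-- the height of a vertex -/
def hv (v : VV) : ℤ := Quotient.liftOn' v (fun g => (ht g).toAdd) fun _ _ h =>
  congrArg Multiplicative.toAdd (ht_eq (Quotient.sound' h))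

theorem hv_vx (g : GG) : hv (vx g) = (ht g).toAdd := rfl

theorem smul_vx (g h : GG) : g • vx h = vx (g * h) := rfl

theorem exists_vx (v : VV) : ∃ g, v = vx g := ⟨v.out, (Quotient.out_eq v).symm⟩

theorem hv_smul (g : GG) (v : VV) : hv (g • v) = (ht g).toAdd + hv v := by
  obtain ⟨h, rfl⟩ := exists_vx v
  rw [smul_vx, hv_vx, hv_vx, _root_.map_mul, toAdd_mul]

theorem hv_step (g : GG) (s : Fin 3) (hs : s ≠ 0) :
    hv (vx (g * SemidirectProduct.inl (of s))) = hv (vx g) + 1 := by
  rw [hv_vx, hv_vx, _root_.map_mul, toAdd_mul, ht_inl_of s hs, toAdd_ofAdd]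

/-- the tree -/
def TT : SimpleGraph VV where
  Adj x y := ∃ (g : GG) (s : Fin 3), s ≠ 0 ∧
    ((x = vx g ∧ y = vx (g * SemidirectProduct.inl (of s))) ∨
      (y = vx g ∧ x = vx (g * SemidirectProduct.inl (of s))))
  symm := ⟨by
    rintro x y ⟨g, s, hs, h⟩
    exact ⟨g, s, hs, h.symm⟩⟩
  loopless := ⟨by
    rintro x ⟨g, s, hs, ⟨h1, h2⟩ | ⟨h1, h2⟩⟩
    · have := hv_step g s hs
      rw [← h2, ← h1] at this
      omega
    · have := hv_step g s hs
      rw [← h2, ← h1] at this
      omega⟩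

theorem TT_adj (x y : VV) : TT.Adj x y ↔ ∃ (g : GG) (s : Fin 3), s ≠ 0 ∧
    ((x = vx g ∧ y = vx (g * SemidirectProduct.inl (of s))) ∨
      (y = vx g ∧ x = vx (g * SemidirectProduct.inl (of s)))) := Iff.rfl

theorem hv_adj {x y : VV} (h : TT.Adj x y) : hv y = hv x + 1 ∨ hv x = hv y + 1 := by
  obtain ⟨g, s, hs, ⟨rfl, rfl⟩ | ⟨rfl, rfl⟩⟩ := h
  · exact Or.inl (hv_step g s hs)
  · exact Or.inr (hv_step g s hs)

theorem TT_smul (g : GG) (x y : VV) (h : TT.Adj x y) : TT.Adj (g • x) (g • y) := by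
  obtain ⟨k, s, hs, ⟨rfl, rfl⟩ | ⟨rfl, rfl⟩⟩ := h
  · exact ⟨g * k, s, hs, Or.inl ⟨rfl, by rw [smul_vx, mul_assoc]⟩⟩
  · exact ⟨g * k, s, hs, Or.inr ⟨rfl, by rw [smul_vx, mul_assoc]⟩⟩

theorem TT_inv (g : GG) (x y : VV) (h : TT.Adj x y) : ¬ (g • x = y ∧ g • y = x) := by
  rintro ⟨h1, h2⟩
  have h3 := hv_smul g x
  have h4 := hv_smul g y
  rw [h1] at h3
  rw [h2] at h4
  rcases hv_adj h with h5 | h5 <;> omega

/-- in terms of the free group -/
theorem vx_mul_inl (g : GG) (s : Fin 3) :
    vx (g * SemidirectProduct.inl (of s)) = vx (SemidirectProduct.inl (g.left * of s)) := by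
  rw [vx_eq_iff]
  refine ⟨-(g.right.toAdd * ex s), ?_⟩
  rw [SemidirectProduct.mul_left, SemidirectProduct.left_inl, SemidirectProduct.left_inl, Phi_of,
    mul_assoc, mul_assoc, ← zpow_add, add_neg_cancel, zpow_zero, mul_one]

theorem vx_inl_left (g : GG) : vx g = vx (SemidirectProduct.inl g.left) := by
  rw [vx_eq_iff]
  exact ⟨0, by simp⟩

theorem adj_inl (f : F3) (s : Fin 3) (hs : s ≠ 0) :
    TT.Adj (vx (SemidirectProduct.inl f)) (vx (SemidirectProduct.inl (f * of s))) :=
  ⟨SemidirectProduct.inl f, s, hs, Or.inl ⟨rfl, by rw [_root_.map_mul]⟩⟩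

theorem par_vx_inl (f : F3) : par (vx (SemidirectProduct.inl f)) =
    vx (SemidirectProduct.inl (FreeGroup.mk (dropA (f⁻¹).toWord).tail)⁻¹) := rfl

theorem nv_inl (f : F3) : nv (vx (SemidirectProduct.inl f)) = dropA (f⁻¹).toWord := rfl

theorem nv_one : nv (vx 1) = [] := by
  rw [nv_vx, nf]
  simp [dropA]

theorem eq_one_of_nv (v : VV) (h : nv v = []) : v = vx 1 := by
  obtain ⟨g, rfl⟩ := exists_vx v
  rw [nv_vx] at h
  rw [vx_mk_nf g, h]
  rfl

theorem mk_cons_true (s : Fin 3) (l : List (Fin 3 × Bool)) :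
    FreeGroup.mk ((s, true) :: l) = of s * FreeGroup.mk l := by
  rw [← mk_true, mul_mk]
  rfl

theorem mk_cons_false (s : Fin 3) (l : List (Fin 3 × Bool)) :
    FreeGroup.mk ((s, false) :: l) = (of s)⁻¹ * FreeGroup.mk l := by
  rw [← mk_false, mul_mk]
  rfl

theorem adj_par (v : VV) (hv : v ≠ vx 1) :
    TT.Adj v (par v) ∧ (nv (par v)).length < (nv v).length := by
  obtain ⟨g, rfl⟩ := exists_vx v
  have hred : IsReduced (nf g) := isReduced_dropA _ isReduced_toWord
  cases hL : nf g with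
  | nil => exact absurd (eq_one_of_nv (vx g) hL) hv
  | cons x l =>
    have hx : x.1 ≠ 0 := dropA_head _ x l hL
    obtain ⟨s, ε⟩ := x
    have hp : par (vx g) = vx (SemidirectProduct.inl (FreeGroup.mk l)⁻¹) := by
      show vx (SemidirectProduct.inl (FreeGroup.mk (nf g).tail)⁻¹) = _
      rw [hL]
      rfl
    have hg : vx g = vx (SemidirectProduct.inl (FreeGroup.mk ((s, ε) :: l))⁻¹) := by
      rw [vx_mk_nf g, hL]
    rw [hL] at hred
    have hl : IsReduced l := List.IsChain.suffix hred (List.suffix_cons _ _)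
    constructor
    · rw [hp, hg]
      cases ε
      · rw [mk_cons_false, mul_inv_rev, inv_inv]
        exact (adj_inl _ s hx).symm
      · rw [mk_cons_true, mul_inv_rev]
        have h1 := adj_inl ((FreeGroup.mk l)⁻¹ * (of s)⁻¹) s hx
        rw [inv_mul_cancel_right] at h1
        exact h1
    · rw [hp, nv_vx, nv_vx, nf_inl l hl, hL]
      exact Nat.lt_succ_of_le (length_dropA l)

theorem adj_or (x y : VV) (h : TT.Adj x y) :
    (x ≠ vx 1 ∧ par x = y) ∨ (y ≠ vx 1 ∧ par y = x) := by
  have key : ∀ (g : GG) (s : Fin 3), s ≠ 0 →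
      (vx g ≠ vx 1 ∧ par (vx g) = vx (g * SemidirectProduct.inl (of s))) ∨
        (vx (g * SemidirectProduct.inl (of s)) ≠ vx 1 ∧
          par (vx (g * SemidirectProduct.inl (of s))) = vx g) := by
    intro g s hs
    rw [vx_mul_inl, vx_inl_left g]
    generalize g.left = f
    have hne : ∀ (f : F3) (x : Fin 3 × Bool) (l : List (Fin 3 × Bool)),
        dropA (f⁻¹).toWord = x :: l → vx (SemidirectProduct.inl f) ≠ vx 1 := by
      intro f x l h1 h2
      have h3 := congrArg nv h2
      rw [nv_one, nv_inl, h1] at h3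
      exact List.cons_ne_nil _ _ h3
    have hw : ((f * of s)⁻¹).toWord = List.casesOn (f⁻¹).toWord [(s, false)] fun hd tl =>
        if s = hd.1 ∧ false = not hd.2 then tl else (s, false) :: hd :: tl := by
      rw [mul_inv_rev, ← mk_false, toWord_mk_mul]
    cases hL : (f⁻¹).toWord with
    | nil =>
      rw [hL] at hw
      have hw' : ((f * of s)⁻¹).toWord = [(s, false)] := hw
      right
      have h1 : dropA ((f * of s)⁻¹).toWord = [(s, false)] := by
        rw [hw', dropA_cons_ne _ hs]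
      refine ⟨hne _ _ _ h1, ?_⟩
      rw [par_vx_inl, h1]
      have : f = 1 := by
        rw [toWord_eq_nil_iff, inv_eq_one] at hL
        exact hL
      rw [this]
      rfl
    | cons hd tl =>
      rw [hL] at hw
      have hw' : ((f * of s)⁻¹).toWord =
        if s = hd.1 ∧ false = not hd.2 then tl else (s, false) :: hd :: tl := hw
      by_cases hc : s = hd.1 ∧ false = not hd.2
      · left
        rw [if_pos hc] at hw'
        have h1 : dropA (f⁻¹).toWord = hd :: tl := by
          rw [hL, dropA_cons_ne _ (by rw [← hc.1]; exact hs)]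
        refine ⟨hne _ _ _ h1, ?_⟩
        rw [par_vx_inl, h1]
        show vx (SemidirectProduct.inl (FreeGroup.mk tl)⁻¹) = _
        rw [← hw', mk_toWord, inv_inv]
      · right
        rw [if_neg hc] at hw'
        have h1 : dropA ((f * of s)⁻¹).toWord = (s, false) :: hd :: tl := by
          rw [hw', dropA_cons_ne _ hs]
        refine ⟨hne _ _ _ h1, ?_⟩
        rw [par_vx_inl, h1]
        show vx (SemidirectProduct.inl (FreeGroup.mk (hd :: tl))⁻¹) = _
        rw [← hL, mk_toWord, inv_inv]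
  obtain ⟨g, s, hs, ⟨rfl, rfl⟩ | ⟨rfl, rfl⟩⟩ := h
  · exact key g s hs
  · exact (key g s hs).symm

theorem TT_isTree : TT.IsTree :=
  Pool.Agent.Helper270.HNN.isTree_of_parent (par := par) (o := vx 1) (fun v => (nv v).length)
    (fun v hv => (adj_par v hv).1) (fun v hv => (adj_par v hv).2) adj_or

end Pool.Agent.Y52.GE
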