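import Mathlib
import Pool.Agent.Y52.GE.Tree

/-!
# Stabilizers
-/

set_option autoImplicit false

namespace Pool.Agent.Y52.GE

open FreeGroup

/-- the exponent sum of all letters -/
def sumHom : F3 →* Multiplicative ℤ := FreeGroup.lift fun _ => Multiplicative.ofAdd 1

theorem sumHom_zpow (k : ℤ) : sumHom (of 0 ^ k) = Multiplicative.ofAdd k := by
  rw [sumHom, map_zpow, lift_apply_of, ← ofAdd_zsmul, smul_eq_mul, mul_one]

theorem zpow_inj {k l : ℤ} (h : (of 0 : F3) ^ k = of 0 ^ l) : k = l := by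
  have h1 := congrArg sumHom h
  rw [sumHom_zpow, sumHom_zpow] at h1
  exact Multiplicative.ofAdd.injective h1

/-- `ℤ² ≅ ⟨a, t⟩` -/
def kap : Multiplicative (Fin 2 → ℤ) →* GG where
  toFun v := ⟨of 0 ^ (v.toAdd 0), Multiplicative.ofAdd (v.toAdd 1)⟩
  map_one' := rfl
  map_mul' v w := by
    apply SemidirectProduct.ext
    · rw [SemidirectProduct.mul_left]
      show (of 0 : F3) ^ (v.toAdd 0 + w.toAdd 0) = _
      rw [zpow_add, Phi_zero_zpow]
    · rfl

theorem kap_inj : Function.Injective kap := by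
  intro v w h
  have h1 : (of 0 : F3) ^ (v.toAdd 0) = of 0 ^ (w.toAdd 0) := congrArg SemidirectProduct.left h
  have h2 : Multiplicative.ofAdd (v.toAdd 1) = Multiplicative.ofAdd (w.toAdd 1) :=
    congrArg SemidirectProduct.right h
  apply Multiplicative.toAdd.injective
  funext i
  fin_cases i
  · exact zpow_inj h1
  · exact Multiplicative.ofAdd.injective h2

theorem kap_range : kap.range = AA := by
  ext g
  constructor
  · rintro ⟨v, rfl⟩
    exact ⟨_, rfl⟩
  · rintro ⟨k, hk⟩
    refine ⟨Multiplicative.ofAdd ![k, g.right.toAdd], ?_⟩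
    apply SemidirectProduct.ext
    · exact hk.symm
    · rfl

theorem stab_one : MulAction.stabilizer GG (vx 1) = AA := MulAction.stabilizer_quotient AA

theorem stab_iso (v : VV) :
    Nonempty (↥(MulAction.stabilizer GG v) ≃* Multiplicative (Fin 2 → ℤ)) := by
  obtain ⟨g, rfl⟩ := exists_vx v
  have h1 : vx g = g • vx 1 := by rw [smul_vx, mul_one]
  exact ⟨(MulAction.stabilizerEquivStabilizer h1).symm.trans
    ((MulEquiv.subgroupCongr (stab_one.trans kap_range.symm)).trans
      (MonoidHom.ofInjective kap_inj).symm)⟩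

theorem mem_stab {g x : GG} : x ∈ MulAction.stabilizer GG (vx g) ↔ g⁻¹ * x * g ∈ AA := by
  rw [MulAction.mem_stabilizer_iff, smul_vx, eq_comm, QuotientGroup.eq, mul_assoc]

/-- a matrix test for `s⁻¹ a^i s ∉ ⟨a⟩` -/
theorem conj_test (s : Fin 3) (hs : s ≠ 0) (i m : ℤ)
    (h : (of s : F3)⁻¹ * of 0 ^ i * of s = of 0 ^ m) : i = 0 := by
  have h1 : (of 0 : F3) ^ i * of s = of s * of 0 ^ m := by
    rw [← h, mul_assoc, mul_inv_cancel_left]
  have h2 := congrArg (FreeGroup.lift (fun k : Fin 3 => if k = 0 then ModularGroup.T else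
    ModularGroup.S)) h1
  rw [_root_.map_mul, _root_.map_mul, map_zpow, map_zpow, lift_apply_of, lift_apply_of, if_pos rfl,
    if_neg hs] at h2
  have h3 := congrArg (fun M : Matrix.SpecialLinearGroup (Fin 2) ℤ => (M : Matrix (Fin 2) (Fin 2) ℤ) 0 0) h2
  simp [ModularGroup.coe_T_zpow, ModularGroup.coe_S] at h3
  exact h3

theorem edge_mem (g x : GG) (s : Fin 3) (hs : s ≠ 0)
    (h1 : x ∈ MulAction.stabilizer GG (vx g))
    (h2 : x ∈ MulAction.stabilizer GG (vx (g * SemidirectProduct.inl (of s)))) :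
    x ∈ Subgroup.zpowers (g * SemidirectProduct.inr (Multiplicative.ofAdd 1) * g⁻¹) := by
  rw [mem_stab] at h1 h2
  obtain ⟨i, hi⟩ := h1
  obtain ⟨j, hj⟩ := h2
  obtain ⟨y, hy⟩ : ∃ y, y = g⁻¹ * x * g := ⟨_, rfl⟩
  have hx : x = g * y * g⁻¹ := by rw [hy]; group
  have e1 : (g * SemidirectProduct.inl (of s))⁻¹ * x * (g * SemidirectProduct.inl (of s)) =
      (SemidirectProduct.inl (of s))⁻¹ * y * SemidirectProduct.inl (of s) := by
    rw [hy]; group
  rw [← hy] at hi
  rw [e1] at hj
  have h3 : ((SemidirectProduct.inl (of s) : GG)⁻¹ * y * SemidirectProduct.inl (of s)).left =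
      (of s)⁻¹ * of 0 ^ i * (of s * of 0 ^ (y.right.toAdd * ex s)) := by
    rw [← _root_.map_inv, SemidirectProduct.mul_left, SemidirectProduct.mul_left,
      SemidirectProduct.left_inl, SemidirectProduct.right_inl, _root_.map_one, MulAut.one_apply, hi,
      SemidirectProduct.mul_right, SemidirectProduct.right_inl, one_mul,
      SemidirectProduct.left_inl, Phi_of]
  rw [h3, ← mul_assoc, ← eq_mul_inv_iff_mul_eq, ← zpow_neg, ← zpow_add] at hj
  have hi0 := conj_test s hs i _ hj
  rw [hi0, zpow_zero] at hi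
  have hy2 : y = (SemidirectProduct.inr (Multiplicative.ofAdd 1)) ^ (y.right.toAdd) := by
    rw [← map_zpow]
    apply SemidirectProduct.ext
    · rw [hi, SemidirectProduct.left_inr]
    · rw [SemidirectProduct.right_inr, ← ofAdd_zsmul, smul_eq_mul, mul_one]
      rfl
  rw [hx, hy2, ← conj_zpow]
  exact Subgroup.zpow_mem _ (Subgroup.mem_zpowers _) _

theorem edge_cyclic (x y : VV) (h : TT.Adj x y) :
    IsCyclic ↥(MulAction.stabilizer GG x ⊓ MulAction.stabilizer GG y) := by
  have key : ∀ (H : Subgroup GG) (z : GG), H ≤ Subgroup.zpowers z → IsCyclic H := by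
    intro H z hz
    exact isCyclic_of_injective (Subgroup.inclusion hz) (Subgroup.inclusion_injective hz)
  obtain ⟨g, s, hs, ⟨rfl, rfl⟩ | ⟨rfl, rfl⟩⟩ := h
  · exact key _ _ fun x hx => edge_mem g x s hs hx.1 hx.2
  · exact key _ _ fun x hx => edge_mem g x s hs hx.2 hx.1

end Pool.Agent.Y52.GE
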