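import Mathlib
import Pool.Agent.Y52.GE.Stab

/-!
# A quadratic form argument against virtual retractions
-/

set_option autoImplicit false

namespace Pool.Agent.Y52.GE

/-- Suppose `a` commutes with `t`, and `t` is conjugate to `t a` and to `t a⁻¹`. Then every
homomorphism from a subgroup of finite index containing `a` to `ℤ` is zero at `a`. -/
theorem quad {G : Type} [Group G] (a t b c : G) (hat : a * t = t * a)
    (hb : b⁻¹ * t * b = t * a) (hc : c⁻¹ * t * c = t * a⁻¹)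
    (K : Subgroup G) (hK : K.FiniteIndex) (ha : a ∈ K) (ρ : K →* Multiplicative ℤ) :
    ρ ⟨a, ha⟩ = 1 := by
  classical
  let N := K.normalCore
  haveI : N.FiniteIndex := inferInstance
  haveI : Finite (G ⧸ N) := inferInstance
  haveI : Fintype (G ⧸ N) := Fintype.ofFinite _
  have hNK : N ≤ K := K.normalCore_le
  obtain ⟨M, hM0, hM⟩ : ∃ M : ℕ, M ≠ 0 ∧ ∀ g : G, g ^ M ∈ N := by
    refine ⟨N.index.factorial, Nat.factorial_ne_zero _, fun g => ?_⟩
    exact Subgroup.pow_mem_of_index_ne_zero_of_dvd Subgroup.FiniteIndex.index_ne_zero g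
      fun m h1 h2 => Nat.dvd_factorial h1 h2
  have hmem : ∀ x u : G, x⁻¹ * u ^ M * x ∈ K := by
    intro x u
    have h1 := (inferInstance : N.Normal).conj_mem _ (hM u) x⁻¹
    rw [inv_inv] at h1
    exact hNK h1
  let lam : G → G → ℤ := fun u x => (ρ ⟨x⁻¹ * u ^ M * x, hmem x u⟩).toAdd
  have hlam : ∀ u x n, n ∈ N → lam u (x * n) = lam u x := by
    intro u x n hn
    have h1 : (⟨(x * n)⁻¹ * u ^ M * (x * n), hmem _ u⟩ : K) =
        (⟨n, hNK hn⟩ : K)⁻¹ * ⟨x⁻¹ * u ^ M * x, hmem x u⟩ * ⟨n, hNK hn⟩ := by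
      apply Subtype.ext
      show (x * n)⁻¹ * u ^ M * (x * n) = n⁻¹ * (x⁻¹ * u ^ M * x) * n
      group
    apply congrArg Multiplicative.toAdd
    rw [h1, map_mul, map_mul, map_inv, mul_comm (ρ _)⁻¹, mul_assoc, inv_mul_cancel, mul_one]
  let L : G → G ⧸ N → ℤ := fun u q => Quotient.liftOn' q (lam u) (by
    intro x y hxy
    rw [QuotientGroup.leftRel_apply] at hxy
    have := hlam u x _ hxy
    rw [mul_inv_cancel_left] at this
    exact this.symm)
  have hL : ∀ (u x : G), L u (x : G ⧸ N) = lam u x := fun u x => rfl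
  have hconj : ∀ u y : G, ∑ q : G ⧸ N, L (y⁻¹ * u * y) q ^ 2 = ∑ q : G ⧸ N, L u q ^ 2 := by
    intro u y
    rw [← Equiv.sum_comp (MulAction.toPerm y : Equiv.Perm (G ⧸ N)) (fun q => L u q ^ 2)]
    apply Finset.sum_congr rfl
    intro q _
    induction q using QuotientGroup.induction_on with
    | H x =>
      show L (y⁻¹ * u * y) (x : G ⧸ N) ^ 2 = L u ((y * x : G) : G ⧸ N) ^ 2
      rw [hL, hL]
      have h1 : (⟨x⁻¹ * (y⁻¹ * u * y) ^ M * x, hmem _ _⟩ : K) =
          ⟨(y * x)⁻¹ * u ^ M * (y * x), hmem _ _⟩ := by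
        apply Subtype.ext
        show x⁻¹ * (y⁻¹ * u * y) ^ M * x = (y * x)⁻¹ * u ^ M * (y * x)
        have h2 : (y⁻¹ * u * y) ^ M = y⁻¹ * u ^ M * y := by
          have := conj_pow (i := M) (a := y⁻¹) (b := u)
          rw [inv_inv] at this
          exact this
        rw [h2]
        group
      show (ρ _).toAdd ^ 2 = (ρ _).toAdd ^ 2
      rw [h1]
  have hcomm : Commute t a := hat.symm
  have hadd : ∀ (q : G ⧸ N), L (t * a) q = L t q + L a q := by
    intro q
    induction q using QuotientGroup.induction_on with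
    | H x =>
      have h1 : (⟨x⁻¹ * (t * a) ^ M * x, hmem _ _⟩ : K) =
          ⟨x⁻¹ * t ^ M * x, hmem _ _⟩ * ⟨x⁻¹ * a ^ M * x, hmem _ _⟩ := by
        apply Subtype.ext
        show x⁻¹ * (t * a) ^ M * x = (x⁻¹ * t ^ M * x) * (x⁻¹ * a ^ M * x)
        rw [hcomm.mul_pow]
        group
      show (ρ _).toAdd = (ρ _).toAdd + (ρ _).toAdd
      rw [h1, map_mul, toAdd_mul]
  have hsub : ∀ (q : G ⧸ N), L (t * a⁻¹) q = L t q - L a q := by
    intro q
    induction q using QuotientGroup.induction_on with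
    | H x =>
      have h1 : (⟨x⁻¹ * (t * a⁻¹) ^ M * x, hmem _ _⟩ : K) =
          ⟨x⁻¹ * t ^ M * x, hmem _ _⟩ * (⟨x⁻¹ * a ^ M * x, hmem _ _⟩)⁻¹ := by
        apply Subtype.ext
        show x⁻¹ * (t * a⁻¹) ^ M * x = (x⁻¹ * t ^ M * x) * (x⁻¹ * a ^ M * x)⁻¹
        rw [hcomm.inv_right.mul_pow]
        group
      show (ρ _).toAdd = (ρ _).toAdd - (ρ _).toAdd
      rw [h1, map_mul, toAdd_mul, map_inv, toAdd_inv, sub_eq_add_neg]
  have e1 := hconj t b
  have e2 := hconj t c
  rw [hb] at e1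
  rw [hc] at e2
  have e3 : ∑ q : G ⧸ N, L a q ^ 2 = 0 := by
    have h1 : ∑ q : G ⧸ N, (2 * L a q ^ 2) = 0 := by
      have h2 : ∑ q : G ⧸ N, (2 * L a q ^ 2) =
          ∑ q : G ⧸ N, (L (t * a) q ^ 2 + L (t * a⁻¹) q ^ 2 - 2 * L t q ^ 2) := by
        apply Finset.sum_congr rfl
        intro q _
        rw [hadd, hsub]
        ring
      rw [h2, Finset.sum_sub_distrib, Finset.sum_add_distrib, e1, e2, ← Finset.mul_sum]
      ring
    rw [← Finset.mul_sum] at h1
    omega
  have e4 : L a ((1 : G) : G ⧸ N) = 0 := by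
    have h1 := (Finset.sum_eq_zero_iff_of_nonneg (fun q _ => sq_nonneg (L a q))).1 e3
      ((1 : G) : G ⧸ N) (Finset.mem_univ _)
    exact pow_eq_zero_iff (two_ne_zero) |>.1 h1
  rw [hL] at e4
  have e5 : (⟨(1 : G)⁻¹ * a ^ M * 1, hmem _ _⟩ : K) = (⟨a, ha⟩ : K) ^ M := by
    apply Subtype.ext
    show (1 : G)⁻¹ * a ^ M * 1 = a ^ M
    rw [inv_one, one_mul, mul_one]
  have e6 : (ρ ((⟨a, ha⟩ : K) ^ M)).toAdd = 0 := by rw [← e5]; exact e4
  rw [map_pow, toAdd_pow, nsmul_eq_mul] at e6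
  rcases mul_eq_zero.1 e6 with h | h
  · exact absurd (by exact_mod_cast h) hM0
  · exact Multiplicative.toAdd.injective h

open FreeGroup

theorem not_vrc : ¬ ∀ g : GG, ∃ K : Subgroup GG, K.FiniteIndex ∧ Subgroup.zpowers g ≤ K ∧
      ∃ r : ↥K →* GG, (∀ k : ↥K, r k ∈ Subgroup.zpowers g) ∧
        (∀ k : ↥K, (k : GG) ∈ Subgroup.zpowers g → r k = (k : GG)) := by
  intro h
  obtain ⟨K, hK, hle, r, hr1, hr2⟩ := h (SemidirectProduct.inl (of 0))
  have ha : (SemidirectProduct.inl (of 0) : GG) ∈ K := hle (Subgroup.mem_zpowers _)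
  have hmem : ∀ k : K, ∃ i : ℤ, r k = SemidirectProduct.inl (of 0 ^ i) := by
    intro k
    obtain ⟨i, hi⟩ := hr1 k
    exact ⟨i, by rw [map_zpow]; exact hi.symm⟩
  let ρ : K →* Multiplicative ℤ := MonoidHom.mk' (fun k => sumHom (r k).left) (by
    intro k l
    obtain ⟨i, hi⟩ := hmem k
    obtain ⟨j, hj⟩ := hmem l
    rw [_root_.map_mul, hi, hj, ← _root_.map_mul, SemidirectProduct.left_inl,
      SemidirectProduct.left_inl, SemidirectProduct.left_inl, _root_.map_mul])
  let t : GG := SemidirectProduct.inr (Multiplicative.ofAdd 1)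
  let a : GG := SemidirectProduct.inl (of 0)
  have hconj : ∀ i : Fin 3, (SemidirectProduct.inl (of i) : GG)⁻¹ * t *
      SemidirectProduct.inl (of i) = SemidirectProduct.inl (of 0 ^ (ex i)) * t := by
    intro i
    have h1 : (SemidirectProduct.inl (of i * of 0 ^ (ex i)) : GG) =
        t * SemidirectProduct.inl (of i) * t⁻¹ := by
      have h2 := SemidirectProduct.inl_aut (φ := Phi) (Multiplicative.ofAdd 1) (of i)
      rw [Phi_of, toAdd_ofAdd, one_mul, _root_.map_inv] at h2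
      exact h2
    have h3 : t * SemidirectProduct.inl (of i) =
        SemidirectProduct.inl (of i) * SemidirectProduct.inl (of 0 ^ (ex i)) * t := by
      rw [← _root_.map_mul, h1, inv_mul_cancel_right]
    rw [mul_assoc, h3, mul_assoc, inv_mul_cancel_left]
  have hat : a * t = t * a := by
    have h1 := hconj 0
    rw [show ex 0 = 0 from rfl, zpow_zero, _root_.map_one, one_mul, mul_assoc,
      inv_mul_eq_iff_eq_mul] at h1
    exact h1.symm
  have hainv : a⁻¹ * t = t * a⁻¹ := (show Commute a t from hat).inv_left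
  have h1 := quad a t (SemidirectProduct.inl (of 1)) (SemidirectProduct.inl (of 2)) hat
    (by
      rw [hconj 1, show ex 1 = 1 from rfl, zpow_one]
      exact hat)
    (by
      rw [hconj 2, show ex 2 = -1 from rfl, zpow_neg_one, _root_.map_inv]
      exact hainv) K hK ha ρ
  have h2 : ρ ⟨a, ha⟩ = sumHom (r ⟨a, ha⟩).left := rfl
  rw [hr2 ⟨a, ha⟩ (Subgroup.mem_zpowers _)] at h2
  rw [h1] at h2
  have h3 : sumHom (of 0) = Multiplicative.ofAdd 1 := by
    have := sumHom_zpow 1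
    rwa [zpow_one] at this
  have h4 : (1 : Multiplicative ℤ) = Multiplicative.ofAdd 1 := h2.trans h3
  exact absurd (Multiplicative.toAdd.injective.eq_iff.2 h4) (by decide)

end Pool.Agent.Y52.GE
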