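import Mathlib
import Pool.Agent.Y52.GE.Vrc

/-!
# A cyclic subgroup separable tubular group without virtual retractions onto cyclic subgroups
-/

set_option autoImplicit false

namespace Pool.Agent.Y52.GE

open FreeGroup

theorem main : ¬ (∀ (G : Type) [Group G] (V : Type) (T : SimpleGraph V) [MulAction G V],
    T.IsTree →
    (∀ (g : G) (u v : V), T.Adj u v → T.Adj (g • u) (g • v)) →
    (∀ (g : G) (u v : V), T.Adj u v → ¬ (g • u = v ∧ g • v = u)) →
    (∃ S : Finset V, ∀ v : V, ∃ g : G, g • v ∈ S) →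
    (∃ E : Finset (V × V), ∀ u v : V, T.Adj u v → ∃ g : G, (g • u, g • v) ∈ E) →
    (∀ v : V, ∃ n : ℕ, Nonempty (↥(MulAction.stabilizer G v) ≃* Multiplicative (Fin n → ℤ))) →
    (∀ u v : V, T.Adj u v →
      IsCyclic ↥(MulAction.stabilizer G u ⊓ MulAction.stabilizer G v)) →
    (∀ g h : G, h ∉ Subgroup.zpowers g →
      ∃ K : Subgroup G, K.FiniteIndex ∧ Subgroup.zpowers g ≤ K ∧ h ∉ K) →
    ∀ g : G, ∃ K : Subgroup G, K.FiniteIndex ∧ Subgroup.zpowers g ≤ K ∧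
      ∃ r : ↥K →* G, (∀ k : ↥K, r k ∈ Subgroup.zpowers g) ∧
        (∀ k : ↥K, (k : G) ∈ Subgroup.zpowers g → r k = (k : G))) := by
  classical
  intro H
  apply not_vrc
  refine H GG VV TT TT_isTree TT_smul TT_inv ?_ ?_ (fun v => ⟨2, stab_iso v⟩) edge_cyclic
    (fun g h hgh => sep_free 3 Phi g h hgh)
  · refine ⟨{vx 1}, fun v => ?_⟩
    obtain ⟨g, rfl⟩ := exists_vx v
    exact ⟨g⁻¹, by rw [smul_vx, inv_mul_cancel]; exact Finset.mem_singleton_self _⟩
  · refine ⟨Finset.univ.image (fun s : Fin 3 => (vx 1, vx (SemidirectProduct.inl (of s)))) ∪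
      Finset.univ.image (fun s : Fin 3 => (vx (SemidirectProduct.inl (of s)), vx 1)), ?_⟩
    rintro u v ⟨g, s, hs, ⟨rfl, rfl⟩ | ⟨rfl, rfl⟩⟩
    · refine ⟨g⁻¹, Finset.mem_union_left _ (Finset.mem_image.2 ⟨s, Finset.mem_univ _, ?_⟩)⟩
      rw [smul_vx, smul_vx, inv_mul_cancel, inv_mul_cancel_left]
    · refine ⟨g⁻¹, Finset.mem_union_right _ (Finset.mem_image.2 ⟨s, Finset.mem_univ _, ?_⟩)⟩
      rw [smul_vx, smul_vx, inv_mul_cancel, inv_mul_cancel_left]

end Pool.Agent.Y52.GE
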